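import Pool.Agent.H386R3.CC.Asm

set_option autoImplicit false

/-!
# CAT(0) cubulated 3-balls satisfy the isoperimetric inequality of the cubic lattice

If `X` is a CAT(0) cubulation of the closed 3-ball with `V` cubes and `A` boundary squares, then
some set of exactly `V` unit cubes of the integer cubic lattice of `ℝ³` has at most `A` boundary
squares.

Idea of the proof.  The vertices of `X` form a median graph.  Its hyperplanes, joined when they
cross, form a graph `G` without four pairwise crossing hyperplanes, in which the cubes are
triangles (different cubes give different triangles).  Every pair of crossing hyperplanes is dual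
to at least two boundary squares (the squares dual to the pair form a tree, whose leaves lie in
exactly one cube, hence on the boundary sphere by invariance of domain), so `2 |E(G)| ≤ A`.
In a graph with `m` edges without `K₄` the triangles can be layered so that compression gives a
polycube with `V` cubes and surface at most `2 m`.
-/

namespace Pool.Agent.Results.MP_d6bc72_co.CubulatedBalls

open Pool.Agent.H386R3.CC

theorem result {V ι : Type} [Finite ι] (X : CubeComplex V ι) (hX : X.FlagLinks)
    (φ : X.realization ≃ₜ Metric.closedBall (0 : E3) 1) :
    ∃ S : Finset (Fin 3 → ℤ), S.card = Nat.card ι ∧
      (bdry S).ncard ≤ (X.boundarySquares φ).ncard :=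
  CubeComplex.main X hX φ

end Pool.Agent.Results.MP_d6bc72_co.CubulatedBalls
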